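import Pool.Agent.Lib.H91PerP

/-! Finite-fundamental-group analogue of Q1: `C_m × P''_(48r)` has a balanced presentation. -/

open Pool.Agent.Lib.H91Per

theorem Pool.Agent.Variants.MP_17e1e4_al.OctahedralFamily.result (m r : ℕ) (hr : Odd r)
    (hm : m.Coprime (6 * r)) :
    Balanced (Multiplicative (ZMod m) × PresentedGroup (octRels r)) :=
  balancedP m r hr hm
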