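import Pool.Agent.Lib.H91PerAll

/-! Finite-fundamental-group analogue of Q1: every group in the list of finite groups with
cohomological period dividing four has a balanced presentation. -/

open Pool.Agent.Lib.H91Per

theorem Pool.Agent.Variants.MP_17e1e4_al.PeriodFour.result (G : Type) [Group G]
    (h : InPeriodFourList G) : Balanced G :=
  balancedAll G h
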