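import Pool.Agent.Lib.H91PerQ

/-! Finite-fundamental-group analogue of Q1: `C_m × Q(8n; k, l)` has a balanced presentation. -/

open Pool.Agent.Lib.H91Per

theorem Pool.Agent.Variants.MP_17e1e4_al.QuaternionFamily.result (m n k l : ℕ) (r : ℤ)
    (hk : (8 * n).Coprime k) (hl : (8 * n).Coprime l) (hkl : k.Coprime l)
    (hm : m.Coprime (8 * n * k * l)) (hr1 : r ≡ -1 [ZMOD k]) (hr2 : r ≡ 1 [ZMOD l]) :
    Balanced (Multiplicative (ZMod m) × PresentedGroup (milnorRels n k l r)) :=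
  balancedQ m n k l r hk hl hkl hm hr1 hr2
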